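import Pool.Agent.W78.GC.Defs

/-!
Project GH (helper78): `m^2+1` with `m = 2 q n`, `q` an odd prime, `n > 1`. Definitions.
-/

set_option autoImplicit false

namespace Pool.Agent.W78.GH

open Finset Filter
open Pool.Agent.W78.GA

open scoped Classical in
/-- the pairs of determinant one for which `ip` has no odd prime factor `≤ Q` -/
noncomputable def Nq (Q : ℕ) (X : ℝ) : Finset (Qd 0 1 × Qd 0 1) :=
  (dedge 0 1 X).filter (fun e => ∀ q : ℕ, q.Prime → 3 ≤ q → q ≤ Q → ¬ (q : ℤ) ∣ ip e.1 e.2)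

/-- NQ: few pairs of determinant one for which `ip` has no small odd prime factor -/
def S_NQ : Prop := ∀ δ : ℝ, 0 < δ → ∃ (Q : ℕ) (X₀ : ℝ), ∀ X : ℝ, X₀ ≤ X →
  ((Nq Q X).card : ℝ) ≤ δ * X

end Pool.Agent.W78.GH
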