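import Pool.Agent.W78.GC.All
import Pool.Agent.W78.GH.Defs
import Pool.Agent.W310.GH.NQ

/-!
Project GH (helper78): conclusion.
-/

set_option autoImplicit false

namespace Pool.Agent.W78.GH

open Finset Filter
open Pool.Agent.W78.GA
open Pool.Agent.W78.GC

/-- even integers with an odd prime factor `≤ Q` -/
def PrQ (Q : ℕ) (n : ℤ) : Prop := Even n ∧ ∃ q : ℕ, q.Prime ∧ 3 ≤ q ∧ q ≤ Q ∧ (q : ℤ) ∣ n

lemma edgeq (h : S_NQ) : ∃ Q, S_EDGEP 0 1 (PrQ Q) := by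
  classical
  have hE := (Pool.Agent.W85.GC.edgee scc1 Pool.Agent.W571.GC.betwe).1
  obtain ⟨κ₁, hκ₁, X₁, h₁⟩ := hE 1 (Or.inl rfl)
  obtain ⟨κ₂, hκ₂, X₂, h₂⟩ := hE (-1) (Or.inr rfl)
  set κ : ℝ := min κ₁ κ₂ with hκdef
  have hκ : 0 < κ := lt_min hκ₁ hκ₂
  obtain ⟨Q, X₀, hQ⟩ := h (κ / 2) (by positivity)
  refine ⟨Q, ?_⟩
  have key : ∀ (s : ℤ) (X : ℝ), κ * X ≤ ((EP 0 1 (fun n => Even n) s X).card : ℝ) →
      X₀ ≤ X → κ / 2 * X ≤ ((EP 0 1 (PrQ Q) s X).card : ℝ) := by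
    intro s X h1 h2
    have h3 := hQ X h2
    have hsub : EP 0 1 (fun n => Even n) s X \ Nq Q X ⊆ EP 0 1 (PrQ Q) s X := by
      intro e he
      rw [Finset.mem_sdiff] at he
      obtain ⟨he1, he2⟩ := he
      rw [Pool.Agent.W85.GC.mem_EP] at he1 ⊢
      by_contra hcon
      apply he2
      unfold Nq
      rw [Finset.mem_filter]
      refine ⟨he1.1, ?_⟩
      intro q hq h3q hqQ hdvd
      exact hcon ⟨he1.1, ⟨he1.2.1, q, hq, h3q, hqQ, hdvd⟩, he1.2.2⟩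
    have h4 : ((EP 0 1 (fun n => Even n) s X).card : ℝ) - ((Nq Q X).card : ℝ)
        ≤ ((EP 0 1 (PrQ Q) s X).card : ℝ) := by
      have h5 := Finset.card_le_card hsub
      have h6 := Finset.le_card_sdiff (Nq Q X) (EP 0 1 (fun n => Even n) s X)
      have h7 : (EP 0 1 (fun n => Even n) s X).card ≤ (EP 0 1 (PrQ Q) s X).card + (Nq Q X).card := by
        omega
      have h8 : ((EP 0 1 (fun n => Even n) s X).card : ℝ) ≤
          ((EP 0 1 (PrQ Q) s X).card : ℝ) + ((Nq Q X).card : ℝ) := by exact_mod_cast h7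
      linarith
    linarith
  intro s hs
  rcases hs with rfl | rfl
  · refine ⟨κ / 2, by positivity, max (max X₁ X₀) 0, fun X hX => key 1 X ?_ ?_⟩
    · have hX0 : 0 ≤ X := le_trans (le_max_right _ _) hX
      have : X₁ ≤ X := le_trans (le_trans (le_max_left _ _) (le_max_left _ _)) hX
      exact (mul_le_mul_of_nonneg_right (min_le_left _ _) hX0).trans (h₁ X this)
    · exact le_trans (le_trans (le_max_right _ _) (le_max_left _ _)) hX
  · refine ⟨κ / 2, by positivity, max (max X₂ X₀) 0, fun X hX => key (-1) X ?_ ?_⟩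
    · have hX0 : 0 ≤ X := le_trans (le_max_right _ _) hX
      have : X₂ ≤ X := le_trans (le_trans (le_max_left _ _) (le_max_left _ _)) hX
      exact (mul_le_mul_of_nonneg_right (min_le_right _ _) hX0).trans (h₂ X this)
    · exact le_trans (le_trans (le_max_right _ _) (le_max_left _ _)) hX

lemma prQ_symm (Q : ℕ) (n : ℤ) : PrQ Q (-0 - n) ↔ PrQ Q n := by
  rw [neg_zero, zero_sub]
  unfold PrQ
  rw [even_neg]
  constructor
  · rintro ⟨h1, q, h2, h3, h4, h5⟩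
    exact ⟨h1, q, h2, h3, h4, (dvd_neg.1 h5)⟩
  · rintro ⟨h1, q, h2, h3, h4, h5⟩
    exact ⟨h1, q, h2, h3, h4, (dvd_neg.2 h5)⟩

theorem finq (h : S_NQ) : ∃ Q, S_FINP 0 1 (PrQ Q) := by
  obtain ⟨Q, hQ⟩ := edgeq h
  exact ⟨Q, fin_of (by norm_num) _ (prQ_symm Q) hQ⟩

/-- a natural number `n > 2 Q` with `PrQ Q n` is `2 q m` with `m > 1` -/
lemma shape {Q n : ℕ} (hn : 2 * Q < n) (h : PrQ Q (n : ℤ)) :
    ∃ q m : ℕ, q.Prime ∧ 3 ≤ q ∧ q ≤ Q ∧ 1 < m ∧ n = 2 * q * m := by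
  obtain ⟨h1, q, hq, h3, hqQ, hd⟩ := h
  have h2 : 2 ∣ n := by
    rw [Int.even_coe_nat] at h1
    exact h1.two_dvd
  have hd' : q ∣ n := by exact_mod_cast hd
  have hco : Nat.Coprime 2 q := by
    rw [Nat.coprime_primes Nat.prime_two hq]
    omega
  obtain ⟨m, hm⟩ := hco.mul_dvd_of_dvd_of_dvd h2 hd'
  refine ⟨q, m, hq, h3, hqQ, ?_, hm⟩
  by_contra hcon
  push Not at hcon
  have : n ≤ 2 * q * 1 := by
    rw [hm]
    exact Nat.mul_le_mul_left _ hcon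
  omega

theorem finq_all : ∃ Q, S_FINP 0 1 (PrQ Q) := finq Pool.Agent.W310.GH.nq

/-- eventually `N / (log N)^(a + ε) ≤ N / (log N)^(a + ε / 2) - K` -/
lemma drop (a ε K : ℝ) (hε : 0 < ε) : ∃ N₀ : ℕ, ∀ N : ℕ, N₀ ≤ N →
    (N : ℝ) / Real.log N ^ (a + ε) + K ≤ (N : ℝ) / Real.log N ^ (a + ε / 2) := by
  -- `N / L^(a+ε/2) * (1 - L^(-ε/2)) ≥ K`
  have h1 : Tendsto (fun N : ℕ => Real.log (N : ℝ)) atTop atTop :=
    Real.tendsto_log_atTop.comp tendsto_natCast_atTop_atTop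
  have h2 : Tendsto (fun N : ℕ => Real.log (N : ℝ) ^ (ε / 2)) atTop atTop :=
    (tendsto_rpow_atTop (by positivity)).comp h1
  have h3 : Tendsto (fun N : ℕ => Real.log (N : ℝ) ^ (a + ε / 2) / (N : ℝ)) atTop (nhds 0) := by
    have h := isLittleO_log_rpow_rpow_atTop (s := 1) (a + ε / 2) one_pos
    have h' : Tendsto (fun x : ℝ => Real.log x ^ (a + ε / 2) / x ^ (1 : ℝ)) atTop (nhds 0) :=
      h.tendsto_div_nhds_zero
    have h'' := h'.comp (tendsto_natCast_atTop_atTop (R := ℝ))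
    simpa [Function.comp_def] using h''
  have e1 := h2.eventually (eventually_ge_atTop (2 : ℝ))
  have e2 := h3.eventually (ge_mem_nhds (show (0 : ℝ) < 1 / (2 * (|K| + 1)) by positivity))
  have e3 := h1.eventually (eventually_ge_atTop (1 : ℝ))
  obtain ⟨N₀, hN⟩ := eventually_atTop.1 (e1.and (e2.and (e3.and (eventually_ge_atTop 1))))
  refine ⟨N₀, fun N h => ?_⟩
  obtain ⟨b1, b2, b3, b4⟩ := hN N h
  have hL : 0 < Real.log (N : ℝ) := by linarith
  have hN0 : (0 : ℝ) < N := by exact_mod_cast b4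
  set L := Real.log (N : ℝ) with hLdef
  have hA : 0 < L ^ (a + ε / 2) := Real.rpow_pos_of_pos hL _
  have hsplit : L ^ (a + ε) = L ^ (a + ε / 2) * L ^ (ε / 2) := by
    rw [← Real.rpow_add hL]
    congr 1
    ring
  have h4 : (N : ℝ) / L ^ (a + ε) ≤ (N : ℝ) / L ^ (a + ε / 2) / 2 := by
    rw [hsplit, ← div_div]
    exact div_le_div_of_nonneg_left (by positivity) (by norm_num) b1
  have h5 : K ≤ (N : ℝ) / L ^ (a + ε / 2) / 2 := by
    have h6 : L ^ (a + ε / 2) * (2 * (|K| + 1)) ≤ (N : ℝ) := by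
      have b2' : L ^ (a + ε / 2) / (N : ℝ) ≤ 1 / (2 * (|K| + 1)) := b2
      rw [div_le_div_iff₀ hN0 (by positivity)] at b2'
      linarith
    have h7 : |K| + 1 ≤ (N : ℝ) / L ^ (a + ε / 2) / 2 := by
      rw [le_div_iff₀ (by norm_num), le_div_iff₀ hA]
      linarith
    linarith [le_abs_self K]
  linarith

end Pool.Agent.W78.GH
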